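import Mathlib.Combinatorics.SimpleGraph.DegreeSum
import Pool.Agent.MP_94842c_co.h78.Lower

/-! The square of a cycle is four-regular and has many cycles. -/

set_option autoImplicit false

namespace Pool.Agent.MP_94842c_co.Sq

open SimpleGraph Lim Low

/-- the square of the infinite path -/
def ps : SimpleGraph ℕ where
  Adj x y := x ≠ y ∧ x ≤ y + 2 ∧ y ≤ x + 2
  symm := ⟨fun _ _ h => ⟨h.1.symm, h.2.2, h.2.1⟩⟩
  loopless := ⟨fun _ h => h.1 rfl⟩

/-- routes from `k + 1` down to zero, without the first vertex -/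
def T : ℕ → Finset (List ℕ)
  | 0 => {[0]}
  | 1 => {[1, 0]}
  | 2 => {[2, 1, 0]}
  | k + 3 => ((T (k + 2)).image fun l => (k + 3) :: l) ∪ (((T (k + 1)).image fun l => (k + 2) :: l) ∪
      ((T k).image fun l => (k + 2) :: (k + 3) :: (k + 1) :: l))

theorem good : ∀ k : ℕ, ∀ l ∈ T k, ((k + 1) :: l).IsChain ps.Adj ∧ l.Nodup ∧
    (∀ x ∈ l, x ≤ k) ∧ ∀ a, (a :: l).getLast? = some 0
  | 0 => by simp [T, ps]
  | 1 => by simp [T, ps]
  | 2 => by simp [T, ps]
  | k + 3 => by
    intro l hl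
    simp only [T, Finset.mem_union, Finset.mem_image] at hl
    rcases hl with ⟨l, hl, rfl⟩ | ⟨l, hl, rfl⟩ | ⟨l, hl, rfl⟩
    all_goals
      obtain ⟨a1, a2, a3, a4⟩ := good _ l hl
      refine ⟨?_, ?_, ?_, fun a => by simp [a4]⟩
      · simpa [ps] using a1
      · simp only [List.nodup_cons, List.mem_cons]
        grind
      · simp only [List.forall_mem_cons]
        grind

theorem card_T (k : ℕ) : (T (k + 3)).card = (T (k + 2)).card + (T (k + 1)).card + (T k).card := by
  rw [T, Finset.card_union_of_disjoint, Finset.card_union_of_disjoint,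
    Finset.card_image_of_injective _ List.cons_injective,
    Finset.card_image_of_injective _ List.cons_injective,
    Finset.card_image_of_injective _ fun l l' h => by simpa using h, add_assoc]
  all_goals
    rw [Finset.disjoint_left]
    simp only [Finset.mem_union, Finset.mem_image]
  · rintro _ ⟨l, hl, rfl⟩ ⟨l', -, h⟩
    obtain rfl : _ = l := (List.cons.inj h).2
    have := (good _ _ hl).2.2.1 (k + 3) (by simp)
    omega
  · rintro _ ⟨l, hl, rfl⟩ (⟨l', -, h⟩ | ⟨l', -, h⟩) <;> simp at h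

theorem le_T {τ : ℝ} (h1 : 1 ≤ τ) (h : τ ^ 3 ≤ τ ^ 2 + τ + 1) :
    ∀ k : ℕ, τ ^ k ≤ τ ^ 2 * (T k).card
  | 0 => by simpa [T, -one_le_sq_iff_one_le_abs] using one_le_pow₀ h1
  | 1 => by simpa [T] using le_self_pow₀ h1 two_ne_zero
  | 2 => by simp [T]
  | k + 3 => by
    have a := le_T h1 h k
    have b := le_T h1 h (k + 1)
    have c := le_T h1 h (k + 2)
    have d := mul_le_mul_of_nonneg_left h (pow_nonneg (zero_le_one.trans h1) k)
    rw [card_T]
    push_cast
    calc τ ^ (k + 3) = τ ^ k * τ ^ 3 := by ring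
      _ ≤ τ ^ k * (τ ^ 2 + τ + 1) := d
      _ = τ ^ (k + 2) + τ ^ (k + 1) + τ ^ k := by ring
      _ ≤ _ := by linarith

/-- the square of the cycle on `n` vertices -/
def cs (n : ℕ) : SimpleGraph (Fin n) where
  Adj x y := x ≠ y ∧ (((x : ℕ) ≤ y + 2 ∧ (y : ℕ) ≤ x + 2) ∨ n + (x : ℕ) ≤ y + 2 ∨ n + (y : ℕ) ≤ x + 2)
  symm := ⟨fun _ _ h => ⟨h.1.symm, by have := h.2; omega⟩⟩
  loopless := ⟨fun _ h => h.1 rfl⟩

theorem cs_degree (n : ℕ) (v : Fin (n + 5)) : ((cs (n + 5)).neighborSet v).ncard = 4 := by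
  have h : Fin.val '' (cs (n + 5)).neighborSet v = {(v + 1) % (n + 5), (v + 2) % (n + 5),
      (v + (n + 3)) % (n + 5), (v + (n + 4)) % (n + 5)} ∧
      ({(v + 1) % (n + 5), (v + 2) % (n + 5), (v + (n + 3)) % (n + 5),
        (v + (n + 4)) % (n + 5)} : Set ℕ).ncard = 4 := by
    have hv := v.2
    have m : ∀ j, j < n + 5 → (v + j) % (n + 5) = if v + j < n + 5 then v + j else v + j - (n + 5) :=
      fun j hj => by
        split_ifs with h
        · exact Nat.mod_eq_of_lt h
        · rw [Nat.mod_eq_sub_mod (by omega), Nat.mod_eq_of_lt (by omega)]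
    rw [m 1 (by omega), m 2 (by omega), m (n + 3) (by omega), m (n + 4) (by omega)]
    constructor
    · ext x
      simp only [Set.mem_image, mem_neighborSet, cs, Set.mem_insert_iff, Set.mem_singleton_iff,
        Ne, Fin.ext_iff]
      constructor
      · rintro ⟨y, hy, rfl⟩
        have := y.2
        split_ifs <;> omega
      · intro hx
        refine ⟨⟨x, by split_ifs at hx <;> omega⟩, ?_, rfl⟩
        simp only
        split_ifs at hx <;> omega
    · rw [Set.ncard_insert_of_notMem, Set.ncard_insert_of_notMem, Set.ncard_pair]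
      all_goals
        try simp only [Set.mem_insert_iff, Set.mem_singleton_iff]
        split_ifs <;> omega
  rw [← h.2, ← h.1, Set.ncard_image_of_injective _ Fin.val_injective]

theorem cs_edges (n : ℕ) : (cs (n + 5)).edgeSet.ncard = 2 * (n + 5) := by
  classical
  have h := (cs (n + 5)).sum_degrees_eq_twice_card_edges
  have h1 : ∀ v, (cs (n + 5)).degree v = 4 := fun v => by
    rw [← cs_degree n v, ← card_neighborFinset_eq_degree, ← Set.ncard_coe_finset,
      coe_neighborFinset]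
  simp only [h1, Finset.sum_const, Finset.card_univ, Fintype.card_fin, smul_eq_mul] at h
  rw [← coe_edgeFinset, Set.ncard_coe_finset]
  omega

theorem T_le (n : ℕ) : (T (n + 3)).card ≤ (cycles (cs (n + 5))).ncard := by
  let G := ps.comap (Fin.val : Fin (n + 5) → ℕ)
  let s : Fin (n + 5) := Fin.last _
  have hG : G ≤ cs (n + 5) := fun x y h => ⟨fun e => h.1 (congrArg _ e), .inl h.2⟩
  have hn : ¬ G.Adj 0 s := fun h => by have := h.2.2; simp [s] at this
  have ha : (cs (n + 5)).Adj 0 s := ⟨fun h => by simp [s, Fin.ext_iff] at h, by simp [s]⟩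
  have h0 : (paths G s 0).ncard ≤ (cycles (cs (n + 5))).ncard := by
    refine Set.ncard_le_ncard_of_injOn (insert s(0, s)) ?_ fun S hS T hT e => ?_
    · rintro _ ⟨p, hp, rfl⟩
      refine ⟨0, .cons ha (p.mapLe hG), (Walk.cons_isCycle_iff _ _).2
        ⟨hp.mapLe _, fun h3 => hn (p.edges_subset_edgeSet (by simpa using h3))⟩, ?_⟩
      ext
      simp
    · rw [← Set.insert_sdiff_self_of_notMem (a := s(0, s)) fun h => hn (paths_sub S hS h), e,
        Set.insert_sdiff_self_of_notMem fun h => hn (paths_sub T hT h)]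
  refine le_trans ?_ h0
  have h1 : Set.InjOn (Walk.edgeSet : G.Walk s 0 → _) {p | p.IsPath} :=
    fun p hp q hq => path_ext p q hp hq
  have h2 : paths G s 0 = Walk.edgeSet '' {p : G.Walk s 0 | p.IsPath} := by
    ext
    simp [paths, eq_comm]
  have h3 : {p : G.Walk s 0 | p.IsPath}.Finite := .of_finite_image (Set.toFinite _) h1
  rw [h2, h1.ncard_image, ← Set.ncard_coe_finset]
  refine (Set.ncard_le_ncard (t := (fun p : G.Walk s 0 => (p.support.map Fin.val).tail) ''
    {p | p.IsPath}) (fun l hl => ?_) (h3.image _)).trans (Set.ncard_image_le h3)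
  obtain ⟨a1, a2, a3, a4⟩ := good _ l hl
  lift l to List (Fin (n + 5)) using fun x hx => Nat.lt_succ_of_le ((a3 x hx).trans (Nat.le_succ _))
  obtain ⟨p, hp⟩ := ex_walk (G := G) (t := 0) l s
    ((List.isChain_map (R := ps.Adj) (l := s :: l) Fin.val).1 a1) (by
      have := a4 s
      rw [← List.map_cons, List.getLast?_map, Option.map_eq_some_iff] at this
      obtain ⟨x, hx, e⟩ := this
      rw [hx, Fin.ext (b := 0) e])
  refine ⟨p, (Walk.isPath_def _).2 ?_, by simp [hp]⟩
  rw [hp]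
  exact List.nodup_cons.2 ⟨fun h => by simpa [s] using a3 _ (List.mem_map_of_mem h),
    a2.of_map _⟩

/-- the lower bound for four-regular graphs -/
theorem lower {τ : ℝ} (h1 : 1 ≤ τ) (h : τ ^ 3 ≤ τ ^ 2 + τ + 1) (n : ℕ) :
    τ ^ (n + 5) ≤ τ ^ 4 * (cycles (cs (n + 5))).ncard :=
  calc τ ^ (n + 5) = τ ^ 2 * τ ^ (n + 3) := by ring
    _ ≤ τ ^ 2 * (τ ^ 2 * (T (n + 3)).card) := by gcongr; exact le_T h1 h _
    _ ≤ τ ^ 2 * (τ ^ 2 * (cycles (cs (n + 5))).ncard) := by gcongr; exact T_le n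
    _ = _ := by ring

end Pool.Agent.MP_94842c_co.Sq
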